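import Pool.Agent.TH599.VR.Ratio

set_option autoImplicit false

/-!
# Linear images of the Schatten-1 ball with large volume ratio

The Schatten-1 ball of the real `d × d` matrices is mapped by a linear map `M` with values in
`ℝ ^ d`, of rank `J m` with `m = 4 q ^ 2` and `J = ⌊d / 2 ^ m⌋`, onto an isometric copy of the
l1-sum of `J` cubes of dimension `m`: read off the diagonal (which maps the Schatten-1 ball onto
the unit ball of l1), and send the `J 2 ^ m` first unit vectors to the vertices of the cubes.  The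
volume ratio of that body, computed in its span, is at least `q / 4`.
-/

open Module

namespace Pool.Agent.Results.MP_29a76b_gt.NonsurjectiveUnbounded

open Pool.Agent.TH599.VR

/-- For every constant `C` there is a proportion `δ > 0` such that in all large dimensions `d`
some linear map of rank at least `δ d` sends the Schatten-1 ball to a body with volume ratio
bigger than `C`. -/
theorem result : ∀ C : ℝ, ∃ δ : ℝ, 0 < δ ∧ ∃ d₀ : ℕ, ∀ d : ℕ, d₀ ≤ d →
    ∃ M : Matrix (Fin d) (Fin d) ℝ →ₗ[ℝ] EuclideanSpace ℝ (Fin d),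
      δ * (d : ℝ) ≤ (finrank ℝ (LinearMap.range M) : ℝ) ∧ C < volumeRatio (M '' S1 d) := by
  intro C
  obtain ⟨q₀, hq₀⟩ := exists_nat_gt (4 * C)
  set q : ℕ := q₀ + 1 with hq
  have hq1 : 1 ≤ q := by omega
  have hqC : C < (q : ℝ) / 4 := by
    rw [hq]; push_cast; linarith
  refine ⟨1 / 2 ^ (4 * q ^ 2), by positivity, 2 ^ (4 * q ^ 2), ?_⟩
  intro d hd
  have hpos : 0 < 2 ^ (4 * q ^ 2) := by positivity
  have hJ : 1 ≤ d / 2 ^ (4 * q ^ 2) := (Nat.one_le_div_iff hpos).mpr hd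
  obtain ⟨M, hM1, hM2⟩ := main q (d / 2 ^ (4 * q ^ 2)) d hq1 hJ (Nat.div_mul_le_self _ _)
  refine ⟨M, ?_, by rw [volumeRatio_eq]; exact hqC.trans_le hM2⟩
  rw [hM1]
  have h1 : d < (d / 2 ^ (4 * q ^ 2) + 1) * 2 ^ (4 * q ^ 2) := by
    rw [mul_comm]; exact Nat.lt_mul_div_succ d hpos
  have h2 : d ≤ (d / 2 ^ (4 * q ^ 2) * (4 * q ^ 2)) * 2 ^ (4 * q ^ 2) := by
    refine h1.le.trans (Nat.mul_le_mul_right _ ?_)
    have : 1 ≤ q ^ 2 := Nat.one_le_pow _ _ hq1
    nlinarith
  have h3 : (d : ℝ) ≤ ((d / 2 ^ (4 * q ^ 2) * (4 * q ^ 2) : ℕ) : ℝ) * 2 ^ (4 * q ^ 2) := by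
    exact_mod_cast h2
  rw [one_div, inv_mul_le_iff₀ (by positivity), mul_comm]
  exact h3

end Pool.Agent.Results.MP_29a76b_gt.NonsurjectiveUnbounded
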